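import Pool.Agent.Helper33.PT.Defs
import Pool.Agent.Helper98.PS.K1

/-!
# T-LE: energy lower bound at one place
-/

set_option autoImplicit false

open Finset Polynomial

namespace Pool.Agent.Helper43.PT

open Pool.Agent.Helper33 Pool.Agent.Helper45.FR Pool.Agent.Helper33.UB Pool.Agent.Helper51.RatTree
  Pool.Agent.Helper93.RatODE Pool.Agent.Helper33.PS Pool.Agent.Helper55.RD Pool.Agent.Helper98.PS

section mat

variable {K : Type*} [Field K]

/-- the unipotent matrix of the shift of the coordinate -/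
noncomputable def shiftM (a : K) (d κ : ℕ) : Matrix (Fin (d ^ κ)) (Fin (d ^ κ)) K :=
  Matrix.of fun i j => ∏ t : Fin κ,
    ((-a) ^ (((finFunctionFinEquiv.symm i) t : ℕ) - ((finFunctionFinEquiv.symm j) t : ℕ)) *
      (((finFunctionFinEquiv.symm i) t : ℕ).choose ((finFunctionFinEquiv.symm j) t : ℕ) : K))

lemma det_shiftM (a : K) (d κ : ℕ) : (shiftM a d κ).det = 1 := by
  have h : (shiftM a d κ).IsLowerTriangular := by
    intro i j hij
    have hij' : i < j := hij
    rw [shiftM, Matrix.of_apply]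
    by_contra hne
    rw [← Ne, prod_ne_zero_iff] at hne
    have h1 : ∀ t : Fin κ, ((finFunctionFinEquiv.symm j) t : ℕ) ≤ ((finFunctionFinEquiv.symm i) t : ℕ) := by
      intro t
      by_contra hcon
      push Not at hcon
      apply hne t (mem_univ t)
      rw [Nat.choose_eq_zero_of_lt hcon]
      simp
    have h2 : (j : ℕ) ≤ (i : ℕ) := by
      have e1 := finFunctionFinEquiv_apply (finFunctionFinEquiv.symm j)
      have e2 := finFunctionFinEquiv_apply (finFunctionFinEquiv.symm i)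
      rw [Equiv.apply_symm_apply] at e1 e2
      rw [e1, e2]
      exact sum_le_sum fun t _ => Nat.mul_le_mul_right _ (h1 t)
    exact absurd hij' (not_lt.2 h2)
  rw [Matrix.det_of_isLowerTriangular _ h]
  apply prod_eq_one
  intro i _
  rw [shiftM, Matrix.of_apply]
  apply prod_eq_one
  intro t _
  simp

/-- values of the products of iterates -/
lemma SP_eval {F G : K[X]} {d : ℕ} (κ : ℕ) (α : Fin κ → Fin d) (y : K) (z : ℕ → K)
    (hW : ∀ t, (iter F G d t).1.eval y = z t * (iter F G d t).2.eval y) :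
    (SP F G d κ α).eval y = ∏ t : Fin κ, (z t ^ (α t : ℕ) * (iter F G d t).2.eval y ^ (d - 1)) := by
  rw [SP, eval_prod]
  apply prod_congr rfl
  intro t _
  rw [eval_mul, eval_pow, eval_pow, hW, mul_pow, mul_assoc, ← pow_add]
  congr 2
  have := (α t).2
  omega

lemma mat_eq {F G : K[X]} {d : ℕ} (hd : 1 ≤ d) (κ : ℕ) (a : K) (y : Fin (d ^ κ) → K)
    (z : ℕ → Fin (d ^ κ) → K)
    (hW : ∀ t j, (iter F G d t).1.eval (y j) = z t j * (iter F G d t).2.eval (y j)) :
    shiftM a d κ * ((Matrix.of fun i (c : Fin (d ^ κ)) =>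
      (SP F G d κ (finFunctionFinEquiv.symm i)).coeff (c : ℕ)) * (Matrix.vandermonde y).transpose) =
      Matrix.of fun i j => ∏ t : Fin κ, ((z t j - a) ^ ((finFunctionFinEquiv.symm i) t : ℕ) *
        (iter F G d t).2.eval (y j) ^ (d - 1)) := by
  have h1 : ((Matrix.of fun i (c : Fin (d ^ κ)) =>
      (SP F G d κ (finFunctionFinEquiv.symm i)).coeff (c : ℕ)) * (Matrix.vandermonde y).transpose) =
      Matrix.of fun i j => (SP F G d κ (finFunctionFinEquiv.symm i)).eval (y j) := by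
    ext i j
    rw [Matrix.mul_apply, Matrix.of_apply, eval_eq_sum_range' (natDegree_SP_lt hd _),
      ← Fin.sum_univ_eq_sum_range (fun c => (SP F G d κ (finFunctionFinEquiv.symm i)).coeff c * y j ^ c)]
    simp [Matrix.vandermonde_apply]
  rw [h1]
  ext i j
  rw [Matrix.mul_apply, Matrix.of_apply]
  have h2 : ∀ β : Fin (d ^ κ), shiftM a d κ i β *
      (Matrix.of fun i j => (SP F G d κ (finFunctionFinEquiv.symm i)).eval (y j)) β j =
      ∏ t : Fin κ, (((-a) ^ (((finFunctionFinEquiv.symm i) t : ℕ) - ((finFunctionFinEquiv.symm β) t : ℕ)) *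
      (((finFunctionFinEquiv.symm i) t : ℕ).choose ((finFunctionFinEquiv.symm β) t : ℕ) : K)) *
      (z t j ^ ((finFunctionFinEquiv.symm β) t : ℕ) * (iter F G d t).2.eval (y j) ^ (d - 1))) := by
    intro β
    rw [Matrix.of_apply, SP_eval κ _ (y j) (fun t => z t j) (fun t => hW t j), shiftM, Matrix.of_apply,
      ← prod_mul_distrib]
  rw [sum_congr rfl fun β _ => h2 β]
  rw [Equiv.sum_comp finFunctionFinEquiv.symm (fun β : Fin κ → Fin d => ∏ t : Fin κ,
    (((-a) ^ (((finFunctionFinEquiv.symm i) t : ℕ) - (β t : ℕ)) *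
      (((finFunctionFinEquiv.symm i) t : ℕ).choose (β t : ℕ) : K)) *
      (z t j ^ (β t : ℕ) * (iter F G d t).2.eval (y j) ^ (d - 1))))]
  have h3 := prod_univ_sum (fun _ : Fin κ => (univ : Finset (Fin d))) (fun t b =>
    (((-a) ^ (((finFunctionFinEquiv.symm i) t : ℕ) - (b : ℕ)) *
      (((finFunctionFinEquiv.symm i) t : ℕ).choose (b : ℕ) : K)) *
      (z t j ^ (b : ℕ) * (iter F G d t).2.eval (y j) ^ (d - 1))))
  rw [Fintype.piFinset_univ] at h3
  rw [← h3]
  apply prod_congr rfl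
  intro t _
  rw [sub_eq_add_neg, add_pow, sum_mul]
  set n := ((finFunctionFinEquiv.symm i) t : ℕ) with hn
  have hnd : n < d := ((finFunctionFinEquiv.symm i) t).2
  rw [Fin.sum_univ_eq_sum_range (fun b => (((-a) ^ (n - b) * (n.choose b : K)) *
      (z t j ^ b * (iter F G d t).2.eval (y j) ^ (d - 1))))]
  rw [← sum_subset (range_subset_range.2 (show n + 1 ≤ d by omega))]
  · apply sum_congr rfl
    intro b _
    ring
  · intro b _ hb
    rw [mem_range, not_lt] at hb
    rw [Nat.choose_eq_zero_of_lt (by omega)]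
    simp

end mat

section local_

variable {K : Type} [Field K] {v : DV K} {F G : K[X]} {d : ℕ} {X : Finset K}

/-- orders of the denominators of the iterates -/
lemma o_iter (hd : 2 ≤ d) (hF : F.natDegree ≤ d) (hG : G.natDegree ≤ d)
    (hX : ∀ y ∈ X, G.eval y ≠ 0 ∧ F.eval y / G.eval y ∈ X) {y : K} (hy : y ∈ X) (t : ℕ) :
    (iter F G d t).2.eval y ≠ 0 ∧
      (iter F G d t).1.eval y = (rmap F G)^[t] y * (iter F G d t).2.eval y ∧
      (v.o ((iter F G d t).2.eval y) : ℝ) =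
        (d : ℝ) ^ t * ratH v d F G y - ratH v d F G ((rmap F G)^[t] y) := by
  have hX' : ∀ z ∈ X, rmap F G z ∈ X := fun z hz => (hX z hz).2
  have hmem : ∀ n, (rmap F G)^[n] y ∈ X := iterate_mem hX' hy
  have horb : ∀ m, (iter F G d m).2.eval y ≠ 0 ∧
      (iter F G d m).1.eval y / (iter F G d m).2.eval y = (rmap F G)^[m] y := by
    intro m
    have h := iter_orbit hF hG (fun n => (rmap F G)^[n] y) 0 m (by
      intro j _
      refine ⟨(hX _ (hmem _)).1, ?_⟩
      rw [Function.iterate_succ']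
      rfl)
    simpa using h
  refine ⟨(horb t).1, ?_, ?_⟩
  · rw [← (horb t).2, div_mul_cancel₀ _ (horb t).1]
  · induction t with
    | zero => simp [iter, v.o_one]
    | succ t ih =>
      have e2 : (iter F G d (t + 1)).2.eval y =
          (iter F G d t).2.eval y ^ d * G.eval ((rmap F G)^[t] y) := by
        change (hev G d (iter F G d t).1 (iter F G d t).2).eval y = _
        rw [hev_eval, hev_eq_eval G d hG _ _ (horb t).1, (horb t).2]
      have h3 := ratH_rec v hd hX' (hmem t)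
      have h4 : F.eval ((rmap F G)^[t] y) / G.eval ((rmap F G)^[t] y) = (rmap F G)^[t + 1] y := by
        rw [Function.iterate_succ']
        rfl
      rw [h4] at h3
      rw [e2, v.mul _ _ (pow_ne_zero _ (horb t).1) (hX _ (hmem t)).1, v.o_pow _ (horb t).1]
      push_cast
      rw [ih]
      rw [pow_succ]
      linear_combination h3

lemma close3 (H : K → ℝ) (R : RLoc v F G d X H) (h3 : 3 ≤ X.card) {y : K} (hy : y ∈ X) :
    -(6 * R.ε : ℝ) ≤ v.o (resultant F G d d) / (d * (d - 1)) - R.r - 2 * H y + 2 * nn v R.a R.r y := by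
  classical
  obtain ⟨z, hz, hzy⟩ := exists_mem_ne (show 1 < X.card by omega) y
  obtain ⟨w, hw, hwy, hwz⟩ : ∃ w ∈ X, w ≠ y ∧ w ≠ z := by
    have : ((X.erase y).erase z).Nonempty := by
      rw [← card_pos]
      have h1 : (X.erase y).card = X.card - 1 := card_erase_of_mem hy
      have h2 : ((X.erase y).erase z).card = (X.erase y).card - 1 :=
        card_erase_of_mem (mem_erase.2 ⟨hzy, hz⟩)
      omega
    obtain ⟨w, hw⟩ := this
    rw [mem_erase, mem_erase] at hw
    exact ⟨w, hw.2.2, hw.2.1, hw.1⟩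
  have a1 := abs_le.1 (R.close y hy z hz hzy.symm)
  have a2 := abs_le.1 (R.close y hy w hw hwy.symm)
  have a3 := abs_le.1 (R.close z hz w hw hwz.symm)
  unfold gg gp at a1 a2 a3
  push_cast at a1 a2 a3
  linarith [a1.1, a2.1, a3.2]

/-- the energy of the points of a Vandermonde matrix -/
lemma vand_energy {n : ℕ} (y : Fin n → K) (hy : Function.Injective y) :
    (Matrix.vandermonde y).det ≠ 0 ∧
      2 * v.o (Matrix.vandermonde y).det = ∑ i, ∑ j, if j = i then 0 else v.o (y i - y j) := by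
  have hdet := Matrix.det_vandermonde y
  have hne : ∀ i : Fin n, ∀ j ∈ Ioi i, y j - y i ≠ 0 := fun i j hj =>
    sub_ne_zero.2 fun e => (ne_of_gt (mem_Ioi.1 hj)) (hy e)
  have hne2 : ∀ i ∈ (univ : Finset (Fin n)), ∏ j ∈ Ioi i, (y j - y i) ≠ 0 :=
    fun i _ => prod_ne_zero_iff.2 (hne i)
  rw [hdet]
  refine ⟨prod_ne_zero_iff.2 hne2, ?_⟩
  rw [v.o_prod _ _ hne2, Pool.Agent.Helper55.RD.sum_Ioi (fun i j => if j = i then 0 else v.o (y i - y j))
    (fun i j => by
      by_cases h : j = i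
      · rw [if_pos h, if_pos h.symm]
      · rw [if_neg h, if_neg (fun e => h e.symm), v.o_sub_comm])
    (fun i => by rw [if_pos rfl])]
  congr 1
  refine sum_congr rfl fun i _ => ?_
  rw [v.o_prod _ _ (hne i)]
  refine sum_congr rfl fun j hj => ?_
  rw [if_neg (fun e => (ne_of_gt (mem_Ioi.1 hj)) e.symm)]

/-- sum of the complementary exponents -/
lemma sum_exp (d κ : ℕ) : 2 * ∑ i : Fin (d ^ κ), ∑ t : Fin κ,
    ((d : ℝ) - 1 - ((finFunctionFinEquiv.symm i) t : ℕ)) = κ * (d : ℝ) ^ κ * (d - 1) := by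
  have h1 : ∑ i : Fin (d ^ κ), ∑ t : Fin κ, ((d : ℝ) - 1 - ((finFunctionFinEquiv.symm i) t : ℕ)) =
      ∑ α : Fin κ → Fin d, ∑ t : Fin κ, ((d : ℝ) - 1 - (α t : ℕ)) :=
    Equiv.sum_comp finFunctionFinEquiv.symm (fun α : Fin κ → Fin d => ∑ t : Fin κ, ((d : ℝ) - 1 - (α t : ℕ)))
  have h2 : ∑ α : Fin κ → Fin d, ∑ t : Fin κ, ((d : ℝ) - 1 - (α t : ℕ)) =
      ∑ α : Fin κ → Fin d, ∑ t : Fin κ, ((α t : ℕ) : ℝ) := by
    rw [← Equiv.sum_comp (Equiv.piCongrRight fun _ : Fin κ => (Fin.revPerm : Equiv.Perm (Fin d)))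
      (fun α : Fin κ → Fin d => ∑ t : Fin κ, ((α t : ℕ) : ℝ))]
    refine sum_congr rfl fun α _ => sum_congr rfl fun t _ => ?_
    simp only [Equiv.piCongrRight_apply, Pi.map_apply, Fin.revPerm_apply, Fin.val_rev]
    rw [Nat.cast_sub (by have := (α t).2; omega)]
    push_cast
    ring
  rw [h1, two_mul]
  nth_rewrite 2 [h2]
  rw [← sum_add_distrib]
  have h3 : ∀ α : Fin κ → Fin d, (∑ t : Fin κ, ((d : ℝ) - 1 - (α t : ℕ))) + ∑ t : Fin κ, ((α t : ℕ) : ℝ) =
      κ * (d - 1) := by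
    intro α
    rw [← sum_add_distrib]
    simp
    ring
  rw [sum_congr rfl fun α _ => h3 α, sum_const, card_univ, Fintype.card_fun, Fintype.card_fin,
    Fintype.card_fin, nsmul_eq_mul]
  push_cast
  ring

/-- lower bound of the order of the determinant -/
lemma det_lower (hd : 2 ≤ d) (hF : F.natDegree ≤ d) (hG : G.natDegree ≤ d)
    (hres : resultant F G d d ≠ 0)
    (hX : ∀ y ∈ X, G.eval y ≠ 0 ∧ F.eval y / G.eval y ∈ X) (a : K) (r : ℤ) (κ : ℕ)
    (y : Fin (d ^ κ) → K) (hy : Function.Injective y) (hyX : ∀ i, y i ∈ X) :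
    ∃ r0 : ℕ, 2 * (d * (d - 1)) * r0 + d ^ κ * κ * (d - 1) + d ^ κ = d ^ κ * d ^ κ ∧
      ∑ j, ((((d : ℝ) ^ κ - 1) * ratH v d F G (y j) + (d - 1) * ∑ t : Fin κ,
        ((nn v a r ((rmap F G)^[t] (y j)) : ℝ) - ratH v d F G ((rmap F G)^[t] (y j))))) -
        r * (κ * (d : ℝ) ^ κ * (d - 1)) / 2 ≤
      r0 * v.o (resultant F G d d) + v.o (Matrix.vandermonde y).det := by
  obtain ⟨r0, hr0, hdet⟩ := SP_det' hd hF hG κ finFunctionFinEquiv
  refine ⟨r0, hr0, ?_⟩
  have hd1 : (1 : ℝ) ≤ d := by exact_mod_cast (by omega : 1 ≤ d)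
  have hW := fun (t : ℕ) (j : Fin (d ^ κ)) => o_iter (v := v) hd hF hG hX (hyX j) t
  have hM := mat_eq (F := F) (G := G) (d := d) (by omega) κ a y
    (fun t j => (rmap F G)^[t] (y j)) (fun t j => (hW t j).2.1)
  have hV := vand_energy (v := v) y hy
  -- the determinant
  have hdetM : ((Matrix.of fun i j => ∏ t : Fin κ, (((rmap F G)^[t] (y j) - a) ^
      ((finFunctionFinEquiv.symm i) t : ℕ) * (iter F G d t).2.eval (y j) ^ (d - 1))) :
      Matrix (Fin (d ^ κ)) (Fin (d ^ κ)) K).det ≠ 0 ∧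
      v.o ((Matrix.of fun i j => ∏ t : Fin κ, (((rmap F G)^[t] (y j) - a) ^
      ((finFunctionFinEquiv.symm i) t : ℕ) * (iter F G d t).2.eval (y j) ^ (d - 1))) :
      Matrix (Fin (d ^ κ)) (Fin (d ^ κ)) K).det =
        r0 * v.o (resultant F G d d) + v.o (Matrix.vandermonde y).det := by
    rw [← hM, Matrix.det_mul, Matrix.det_mul, det_shiftM, one_mul, Matrix.det_transpose]
    rcases hdet with h | h
    · rw [h]
      refine ⟨mul_ne_zero (pow_ne_zero _ hres) hV.1, ?_⟩
      rw [v.mul _ _ (pow_ne_zero _ hres) hV.1, v.o_pow _ hres]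
    · rw [h]
      refine ⟨mul_ne_zero (neg_ne_zero.2 (pow_ne_zero _ hres)) hV.1, ?_⟩
      rw [v.mul _ _ (neg_ne_zero.2 (pow_ne_zero _ hres)) hV.1, v.o_neg, v.o_pow _ hres]
  -- the entries
  set c : Fin (d ^ κ) → Fin (d ^ κ) → ℝ := fun i j => ∑ t : Fin κ,
    (((d : ℝ) - 1) * (v.o ((iter F G d t).2.eval (y j)) + nn v a r ((rmap F G)^[t] (y j))) -
      r * ((d : ℝ) - 1 - ((finFunctionFinEquiv.symm i) t : ℕ))) with hc
  have hentry : ∀ i j, v.ge (c i j) (∏ t : Fin κ, (((rmap F G)^[t] (y j) - a) ^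
      ((finFunctionFinEquiv.symm i) t : ℕ) * (iter F G d t).2.eval (y j) ^ (d - 1))) := by
    intro i j
    refine Pool.Agent.Helper55.RD.ge_prod _ _ _ fun t _ => ?_
    have h1 := DV.ge_pow (ge_nn (v := v) (a := a) (r := r) ((rmap F G)^[t] (y j)))
      ((finFunctionFinEquiv.symm i) t : ℕ)
    have h2 := DV.ge_pow (DV.ge_self (v := v) ((iter F G d t).2.eval (y j))) (d - 1)
    refine DV.ge_mono (DV.ge_mul h1 h2) ?_
    have h3 : (nn v a r ((rmap F G)^[t] (y j)) : ℝ) ≤ r := by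
      exact_mod_cast (nn_le (v := v) (a := a) (r := r) ((rmap F G)^[t] (y j)))
    have h4 : (((finFunctionFinEquiv.symm i) t : ℕ) : ℝ) ≤ (d : ℝ) - 1 := by
      have := ((finFunctionFinEquiv.symm i) t).2
      have h5 : ((((finFunctionFinEquiv.symm i) t : ℕ) + 1 : ℕ) : ℝ) ≤ d := by exact_mod_cast this
      push_cast at h5
      linarith
    rw [Nat.cast_sub (by omega : 1 ≤ d)]
    push_cast
    nlinarith [mul_nonneg (sub_nonneg.2 h4) (sub_nonneg.2 h3)]
  -- Leibniz
  set B : ℝ := ∑ j, ∑ t : Fin κ, (((d : ℝ) - 1) * (v.o ((iter F G d t).2.eval (y j)) +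
      nn v a r ((rmap F G)^[t] (y j)))) -
      r * ∑ i : Fin (d ^ κ), ∑ t : Fin κ, ((d : ℝ) - 1 - ((finFunctionFinEquiv.symm i) t : ℕ)) with hB
  have hge : v.ge B ((Matrix.of fun i j => ∏ t : Fin κ, (((rmap F G)^[t] (y j) - a) ^
      ((finFunctionFinEquiv.symm i) t : ℕ) * (iter F G d t).2.eval (y j) ^ (d - 1))) :
      Matrix (Fin (d ^ κ)) (Fin (d ^ κ)) K).det := by
    rw [Matrix.det_apply']
    refine DV.ge_sum _ _ fun σ _ => ge_sign σ ?_
    have h1 := Pool.Agent.Helper55.RD.ge_prod (v := v) univ (fun j => ∏ t : Fin κ, (((rmap F G)^[t] (y j) - a) ^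
      ((finFunctionFinEquiv.symm (σ j)) t : ℕ) * (iter F G d t).2.eval (y j) ^ (d - 1)))
      (fun j => c (σ j) j) (fun j _ => hentry (σ j) j)
    have h2 : ∑ j, c (σ j) j = B := by
      rw [hB, ← Equiv.sum_comp σ (fun i : Fin (d ^ κ) => ∑ t : Fin κ,
        ((d : ℝ) - 1 - ((finFunctionFinEquiv.symm i) t : ℕ))), mul_sum, ← sum_sub_distrib]
      refine sum_congr rfl fun j _ => ?_
      rw [hc, mul_sum, ← sum_sub_distrib]
    rw [← h2]
    exact h1
  have hle := DV.ge_le hge hdetM.1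
  rw [hdetM.2] at hle
  push_cast at hle
  refine le_trans (le_of_eq ?_) hle
  rw [hB]
  have hS := sum_exp d κ
  have h5 : ∀ j, ∑ t : Fin κ, (((d : ℝ) - 1) * (v.o ((iter F G d t).2.eval (y j)) +
      nn v a r ((rmap F G)^[t] (y j)))) = ((d : ℝ) ^ κ - 1) * ratH v d F G (y j) + (d - 1) * ∑ t : Fin κ,
        ((nn v a r ((rmap F G)^[t] (y j)) : ℝ) - ratH v d F G ((rmap F G)^[t] (y j))) := by
    intro j
    have h6 : ∑ t : Fin κ, (((d : ℝ) - 1) * (v.o ((iter F G d t).2.eval (y j)) +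
      nn v a r ((rmap F G)^[t] (y j)))) = (∑ t : Fin κ, (d : ℝ) ^ (t : ℕ)) * (d - 1) * ratH v d F G (y j) +
        (d - 1) * ∑ t : Fin κ,
        ((nn v a r ((rmap F G)^[t] (y j)) : ℝ) - ratH v d F G ((rmap F G)^[t] (y j))) := by
      rw [sum_mul, sum_mul, mul_sum, ← sum_add_distrib]
      refine sum_congr rfl fun t _ => ?_
      rw [(hW t j).2.2]
      ring
    have h7 : (∑ t : Fin κ, (d : ℝ) ^ (t : ℕ)) * (d - 1) = (d : ℝ) ^ κ - 1 := by
      rw [Fin.sum_univ_eq_sum_range (fun t => (d : ℝ) ^ t)]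
      exact geom_sum_mul _ _
    rw [h6, h7]
  rw [sum_congr rfl fun j _ => h5 j]
  linear_combination ((r : ℝ) / 2) * hS

lemma isRat_res {K : Type} [Field K] {F G : K[X]} {d : ℕ} (hd : 1 ≤ d) (hFG : IsRat F G d) :
    resultant F G d d ≠ 0 :=
  resultant_ne_zero_of_isCoprime hFG.cop hFG.dA hFG.dB
    (hmax_of_top hFG.dA hFG.dB hFG.top) hd

/-- T-LE: energy lower bound at one place; the constant is linear in `κ = log_d (card S)` -/
theorem energy_lower (d : ℕ) (hd : 2 ≤ d) {K : Type} [Field K] [DecidableEq K] (v : DV K)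
    {F G : K[X]} (hFG : IsRat F G d) {x : ℕ → K} {N : ℕ} (h : RatOrbit F G x N) (hN : 2 ≤ N)
    (R : RLoc v F G d (rX h) (ratH v d F G)) (κ : ℕ) (S : Finset K) (hS : S ⊆ rX h)
    (hc : S.card = d ^ κ) :
    -(6 * (d - 1) * κ * d ^ κ * R.ε : ℝ) ≤
      ∑ y ∈ S, ∑ z ∈ S with z ≠ y, gg v d F G (ratH v d F G) y z := by
  have hd2 : (2 : ℝ) ≤ d := by exact_mod_cast hd
  have hres : resultant F G d d ≠ 0 := isRat_res (by omega) hFG
  have hX := rX_spec h
  have h3 : 3 ≤ (rX h).card := by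
    have h1 : (range 3).image x ⊆ rX h := by
      intro y hy
      obtain ⟨i, _, rfl⟩ := mem_image.mp hy
      exact mem_rX h i
    have h2 : ((range 3).image x).card = 3 := by
      rw [card_image_of_injOn, card_range]
      intro i hi j hj e
      rw [mem_coe, mem_range] at hi hj
      exact h.inj i j (by omega) (by omega) e
    calc 3 = ((range 3).image x).card := h2.symm
      _ ≤ _ := card_le_card h1
  -- enumeration
  set e := S.equivFinOfCardEq hc with he
  set y : Fin (d ^ κ) → K := fun i => (e.symm i : K) with hy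
  have hyinj : Function.Injective y := fun i j hij => e.symm.injective (Subtype.ext hij)
  have hyX : ∀ i, y i ∈ rX h := fun i => hS (e.symm i).2
  have himg : S = univ.image y := by
    ext z
    rw [mem_image]
    constructor
    · intro hz
      exact ⟨e ⟨z, hz⟩, mem_univ _, by rw [hy]; simp⟩
    · rintro ⟨i, _, rfl⟩
      exact (e.symm i).2
  obtain ⟨r0, hr0, hlow⟩ := det_lower (v := v) hd hFG.dA hFG.dB hres hX R.a R.r κ y hyinj hyX
  have hV := vand_energy (v := v) y hyinj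
  set q : ℝ := v.o (resultant F G d d) / (d * (d - 1)) with hq
  -- rewriting of the energy
  have hsum : ∑ y ∈ S, ∑ z ∈ S with z ≠ y, gg v d F G (ratH v d F G) y z =
      ∑ i, ∑ j, if j = i then 0 else gg v d F G (ratH v d F G) (y i) (y j) := by
    rw [himg, sum_image (fun i _ j _ hij => hyinj hij)]
    refine sum_congr rfl fun i _ => ?_
    rw [sum_filter, sum_image (fun i _ j _ hij => hyinj hij)]
    refine sum_congr rfl fun j _ => ?_
    by_cases hij : j = i
    · rw [if_pos hij, hij, if_neg (by simp)]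
    · rw [if_neg hij, if_pos (fun e => hij (hyinj e))]
  have hgg : ∑ i, ∑ j, (if j = i then 0 else gg v d F G (ratH v d F G) (y i) (y j)) =
      2 * (v.o (Matrix.vandermonde y).det : ℝ) - 2 * ((d : ℝ) ^ κ - 1) * ∑ j, ratH v d F G (y j) +
        (d : ℝ) ^ κ * ((d : ℝ) ^ κ - 1) * q := by
    have hV2 : 2 * (v.o (Matrix.vandermonde y).det : ℝ) =
        ∑ i, ∑ j, if j = i then (0 : ℝ) else (v.o (y i - y j) : ℝ) := by
      have := hV.2
      have h5 : ((2 * v.o (Matrix.vandermonde y).det : ℤ) : ℝ) =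
        ((∑ i, ∑ j, if j = i then 0 else v.o (y i - y j) : ℤ) : ℝ) := by rw [this]
      push_cast at h5
      exact h5
    rw [hV2]
    have h6 : ∀ i, ∑ j, (if j = i then 0 else gg v d F G (ratH v d F G) (y i) (y j)) =
        ∑ j, (if j = i then (0 : ℝ) else (v.o (y i - y j) : ℝ)) -
          ((d : ℝ) ^ κ - 1) * ratH v d F G (y i) - (∑ j, ratH v d F G (y j) - ratH v d F G (y i)) +
          ((d : ℝ) ^ κ - 1) * q := by
      intro i
      have h7 : ∀ f : Fin (d ^ κ) → ℝ, ∑ j, (if j = i then 0 else f j) = ∑ j, f j - f i := by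
        intro f
        rw [eq_sub_iff_add_eq, ← sum_erase_add univ f (mem_univ i), add_left_inj,
          ← sum_erase_add univ _ (mem_univ i), if_pos rfl, add_zero]
        refine sum_congr rfl fun j hj => ?_
        rw [if_neg (ne_of_mem_erase hj)]
      have h8 : ∑ j, (if j = i then 0 else gg v d F G (ratH v d F G) (y i) (y j)) =
          ∑ j, ((if j = i then (0 : ℝ) else (v.o (y i - y j) : ℝ)) -
            (if j = i then 0 else ratH v d F G (y i)) - (if j = i then 0 else ratH v d F G (y j)) +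
            (if j = i then 0 else q)) := by
        refine sum_congr rfl fun j _ => ?_
        by_cases hij : j = i
        · simp [hij]
        · simp only [if_neg hij]
          unfold gg
          rw [hq]
      rw [h8, sum_add_distrib, sum_sub_distrib, sum_sub_distrib, h7 (fun _ => ratH v d F G (y i)),
        h7 (fun j => ratH v d F G (y j)), h7 (fun _ => q)]
      simp only [sum_const, card_univ, Fintype.card_fin, nsmul_eq_mul]
      push_cast
      ring
    rw [sum_congr rfl fun i _ => h6 i]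
    simp only [sum_add_distrib, sum_sub_distrib, ← mul_sum, sum_const, card_univ, Fintype.card_fin,
      nsmul_eq_mul]
    push_cast
    ring
  rw [hsum, hgg]
  -- the pointwise bound
  have hpt : ∀ j, ∀ t : Fin κ, -(6 * R.ε : ℝ) ≤ q - R.r - 2 * ratH v d F G ((rmap F G)^[t] (y j)) +
      2 * nn v R.a R.r ((rmap F G)^[t] (y j)) := fun j t =>
    close3 (ratH v d F G) R h3 (iterate_mem (fun z hz => (hX z hz).2) (hyX j) t)
  have hpt2 : -(6 * R.ε : ℝ) * (κ * (d : ℝ) ^ κ) ≤ ∑ j, ∑ t : Fin κ,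
      (q - R.r + 2 * ((nn v R.a R.r ((rmap F G)^[t] (y j)) : ℝ) -
        ratH v d F G ((rmap F G)^[t] (y j)))) := by
    have h9 : ∑ j : Fin (d ^ κ), ∑ t : Fin κ, -(6 * R.ε : ℝ) = -(6 * R.ε : ℝ) * (κ * (d : ℝ) ^ κ) := by
      simp only [sum_const, card_univ, Fintype.card_fin, nsmul_eq_mul]
      push_cast
      ring
    rw [← h9]
    refine sum_le_sum fun j _ => sum_le_sum fun t _ => ?_
    linarith [hpt j t]
  have hpt3 : ∑ j, ∑ t : Fin κ,
      (q - R.r + 2 * ((nn v R.a R.r ((rmap F G)^[t] (y j)) : ℝ) -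
        ratH v d F G ((rmap F G)^[t] (y j)))) = κ * (d : ℝ) ^ κ * (q - R.r) + 2 * ∑ j, ∑ t : Fin κ,
      ((nn v R.a R.r ((rmap F G)^[t] (y j)) : ℝ) - ratH v d F G ((rmap F G)^[t] (y j))) := by
    simp only [sum_add_distrib, sum_sub_distrib, ← mul_sum, sum_const, card_univ, Fintype.card_fin,
      nsmul_eq_mul]
    push_cast
    ring
  rw [hpt3] at hpt2
  -- the exponent
  have hr1 : 2 * (r0 : ℝ) * v.o (resultant F G d d) =
      ((d : ℝ) ^ κ * (d : ℝ) ^ κ - (d : ℝ) ^ κ - (d : ℝ) ^ κ * κ * (d - 1)) * q := by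
    have h10 : (2 * (d * ((d : ℝ) - 1)) * r0 + (d : ℝ) ^ κ * κ * (d - 1) + (d : ℝ) ^ κ) =
        (d : ℝ) ^ κ * (d : ℝ) ^ κ := by
      have := congrArg (Nat.cast (R := ℝ)) hr0
      push_cast [Nat.cast_sub (show 1 ≤ d by omega)] at this
      exact this
    have h11 : (d : ℝ) * (d - 1) * q = v.o (resultant F G d d) := by
      rw [hq]
      have : (d : ℝ) * (d - 1) ≠ 0 := by
        have : (0 : ℝ) < d * (d - 1) := by nlinarith
        exact this.ne'
      exact mul_div_cancel₀ _ this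
    rw [← h11]
    linear_combination q * h10
  rw [sum_add_distrib, ← mul_sum, ← mul_sum] at hlow
  have hd3 : (0 : ℝ) ≤ (d : ℝ) - 1 := by linarith
  have h12 := mul_le_mul_of_nonneg_left hpt2 hd3
  nlinarith [hlow, h12, hr1]

end local_

/-- sum over the subsets of given size -/
lemma sum_powersetCard {K : Type} [DecidableEq K] (S : Finset K) (n : ℕ) (hn : 2 ≤ n) (f : K → K → ℝ) :
    ∑ A ∈ S.powersetCard n, ∑ y ∈ A, ∑ z ∈ A with z ≠ y, f y z =
      ((S.card - 2).choose (n - 2) : ℝ) * ∑ y ∈ S, ∑ z ∈ S with z ≠ y, f y z := by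
  have h1 : ∀ A ∈ S.powersetCard n, ∑ y ∈ A, ∑ z ∈ A with z ≠ y, f y z =
      ∑ y ∈ S, ∑ z ∈ S with z ≠ y, if ({y, z} : Finset K) ⊆ A then f y z else 0 := by
    intro A hA
    have hAS := (mem_powersetCard.1 hA).1
    rw [← inter_eq_right.2 hAS, ← filter_mem_eq_inter]
    rw [sum_filter]
    refine sum_congr rfl fun y hy => ?_
    rw [filter_filter, sum_filter, sum_filter]
    by_cases hyA : y ∈ A
    · rw [if_pos hyA]
      refine sum_congr rfl fun z hz => ?_
      by_cases hzA : z ∈ A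
      · by_cases hzy : z = y
        · simp [hzy]
        · rw [if_pos ⟨hzA, hzy⟩, if_pos hzy, if_pos]
          rw [insert_subset_iff, singleton_subset_iff]
          rw [mem_filter, mem_filter]
          exact ⟨⟨hy, hyA⟩, ⟨hz, hzA⟩⟩
      · rw [if_neg (fun h => hzA h.1)]
        by_cases hzy : z = y
        · rw [if_neg (not_not.2 hzy)]
        · rw [if_pos hzy, if_neg]
          rw [insert_subset_iff, singleton_subset_iff, mem_filter, mem_filter]
          exact fun h => hzA h.2.2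
    · rw [if_neg hyA, eq_comm]
      apply sum_eq_zero
      intro z hz
      by_cases hzy : z = y
      · rw [if_neg (not_not.2 hzy)]
      · rw [if_pos hzy, if_neg]
        rw [insert_subset_iff, singleton_subset_iff, mem_filter, mem_filter]
        exact fun h => hyA h.1.2
  rw [sum_congr rfl h1, sum_comm, mul_sum]
  refine sum_congr rfl fun y hy => ?_
  rw [sum_comm, mul_sum]
  refine sum_congr rfl fun z hz => ?_
  rw [mem_filter] at hz
  rw [← sum_filter, sum_const, nsmul_eq_mul]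
  congr 1
  have hcard : ({y, z} : Finset K).card = 2 := card_pair hz.2.symm
  have hsub : ({y, z} : Finset K) ⊆ S := by
    rw [insert_subset_iff, singleton_subset_iff]
    exact ⟨hy, hz.1⟩
  have h2 := card_filter_powersetCard_subset ({y, z} : Finset K) S n hsub (by rw [hcard]; exact hn)
  rw [hcard] at h2
  rw [h2]

/-- T-LE2: the same for sets with `2 d^κ` elements (average over the subsets with `d^κ` elements) -/
theorem energy_lower2 (d : ℕ) (hd : 2 ≤ d) {K : Type} [Field K] [DecidableEq K] (v : DV K)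
    {F G : K[X]} (hFG : IsRat F G d) {x : ℕ → K} {N : ℕ} (h : RatOrbit F G x N) (hN : 2 ≤ N)
    (R : RLoc v F G d (rX h) (ratH v d F G)) (κ : ℕ) (hκ : 1 ≤ κ) (S : Finset K) (hS : S ⊆ rX h)
    (hc : S.card = 2 * d ^ κ) :
    -(36 * (d - 1) * κ * d ^ κ * R.ε : ℝ) ≤
      ∑ y ∈ S, ∑ z ∈ S with z ≠ y, gg v d F G (ratH v d F G) y z := by
  obtain ⟨m, hm⟩ : ∃ m, d ^ κ = m + 2 := by
    have : 2 ≤ d ^ κ := le_trans hd (by
      calc d = d ^ 1 := (pow_one d).symm
        _ ≤ d ^ κ := Nat.pow_le_pow_right (by omega) hκ)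
    exact ⟨d ^ κ - 2, by omega⟩
  have h1 := sum_powersetCard S (d ^ κ) (by omega) (gg v d F G (ratH v d F G))
  have h2 : (S.powersetCard (d ^ κ)).card • (-(6 * (d - 1) * κ * d ^ κ * R.ε : ℝ)) ≤
      ∑ A ∈ S.powersetCard (d ^ κ), ∑ y ∈ A, ∑ z ∈ A with z ≠ y, gg v d F G (ratH v d F G) y z := by
    apply card_nsmul_le_sum
    intro A hA
    rw [mem_powersetCard] at hA
    exact energy_lower d hd v hFG h hN R κ A (hA.1.trans hS) hA.2
  rw [h1, card_powersetCard, hc, nsmul_eq_mul] at h2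
  set E := ∑ y ∈ S, ∑ z ∈ S with z ≠ y, gg v d F G (ratH v d F G) y z with hE
  set T : ℝ := (d - 1) * κ * d ^ κ * R.ε with hT
  have hT0 : 0 ≤ T := by
    have : (1 : ℝ) ≤ d := by exact_mod_cast (by omega : 1 ≤ d)
    have h3 : (0 : ℝ) ≤ (d : ℝ) - 1 := by linarith
    positivity
  rw [hm] at h2
  -- binomial coefficients
  have hb : ((m + 2 : ℕ) : ℝ) * (m + 1 : ℕ) * ((2 * (m + 2)).choose (m + 2) : ℝ) =
      (2 * (m + 2) : ℕ) * (2 * m + 3 : ℕ) * ((2 * (m + 2) - 2).choose (m + 2 - 2) : ℝ) := by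
    have e1 := Nat.add_one_mul_choose_eq (2 * m + 3) (m + 1)
    have e2 := Nat.add_one_mul_choose_eq (2 * m + 2) m
    have e3 : 2 * (m + 2) - 2 = 2 * m + 2 := by omega
    have e4 : m + 2 - 2 = m := by omega
    have e5 : 2 * (m + 2) = 2 * m + 3 + 1 := by omega
    rw [e3, e4, e5]
    have e1' : ((2 * m + 3 + 1 : ℕ) : ℝ) * ((2 * m + 3).choose (m + 1) : ℝ) =
      ((2 * m + 3 + 1).choose (m + 1 + 1) : ℝ) * (m + 1 + 1 : ℕ) := by exact_mod_cast e1
    have e2' : ((2 * m + 2 + 1 : ℕ) : ℝ) * ((2 * m + 2).choose m : ℝ) =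
      ((2 * m + 2 + 1).choose (m + 1) : ℝ) * (m + 1 : ℕ) := by exact_mod_cast e2
    push_cast at e1' e2' ⊢
    linear_combination (-(m + 1 : ℝ)) * e1' - (2 * (m : ℝ) + 3 + 1) * e2'
  have hc0 : (0 : ℝ) < ((2 * (m + 2) - 2).choose (m + 2 - 2) : ℝ) := by
    exact_mod_cast Nat.choose_pos (by omega)
  set c := ((2 * (m + 2) - 2).choose (m + 2 - 2) : ℝ) with hcdef
  set b := ((2 * (m + 2)).choose (m + 2) : ℝ) with hbdef
  have hb6 : b ≤ 6 * c := by
    push_cast at hb
    have hm0 : (0 : ℝ) ≤ m := Nat.cast_nonneg m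
    have hk : (0 : ℝ) < (m + 2) * (m + 1) := by positivity
    have : ((m : ℝ) + 2) * (m + 1) * b ≤ (m + 2) * (m + 1) * (6 * c) := by
      rw [hb]
      nlinarith [mul_nonneg hm0 hc0.le, mul_nonneg (mul_nonneg hm0 hm0) hc0.le]
    exact le_of_mul_le_mul_left this hk
  have h5 : b * -(6 * T) ≤ c * E := by
    refine le_trans (le_of_eq ?_) h2
    rw [hT]
    ring
  have h6 : c * -(36 * T) ≤ c * E := by
    refine le_trans ?_ h5
    nlinarith
  have h7 := le_of_mul_le_mul_left h6 hc0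
  rw [hT] at h7
  linarith

end Pool.Agent.Helper43.PT
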